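import Pool.Agent.Helper14.SJ.Thin

/-!
# Block SJ: the straightening is bounded
-/

set_option autoImplicit false

namespace Pool.Agent.Helper14.SJ

open Pool.Agent.Helper11.BC (dl)
open Pool.Agent.Helper14.BC

/-- The radius which is needed for lists with `n + 3` elements. -/
noncomputable def rr (T : ℝ) : ℕ → ℝ
  | 0 => 2 * ((T + 2) * 3 + 1) + 1
  | n + 1 => 2 * rr T n + 1

variable {G X : Type} [Group G] [MetricSpace X] [MulAction G X] (R : Rad G X) (o : X)

/-- For lists with at least three elements the straightening of a normalised Lipschitz function is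
bounded by a multiple of the Lipschitz constant. -/
theorem st_bound (n : ℕ) :
    ∃ B : ℝ, 0 ≤ B ∧ ∀ (c : List X → ℝ) (M : ℝ), 0 ≤ M → Nrm c → C1 c →
      LB (n + 3) (rr R.T n) M c → ∀ L : List X, L.length = n + 3 → |st R o c L| ≤ B * M := by
  induction n with
  | zero =>
    have hT := R.T_nonneg
    have hC := R.C_nonneg ((R.T + 2) * 3 + 1)
    refine ⟨6 * (KM R 2 ((R.T + 2) * 3 + 1) 1 * ((R.T + 2) * 3 + 1)), ?_, ?_⟩
    · have := KM_nonneg R 2 ((R.T + 2) * 3 + 1) zero_le_one
      positivity
    intro c M hM hn h hL L hl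
    match L, hl with
    | [x, y, z], _ =>
      rw [st_big R o c (by simp), dl_cons, dl_cons, dl_cons]
      have h1 := thin_bound R (KM_nonneg R 2 _ hM) (C1_Kp R x h hn) (nrm_Kp R x hn)
        (Kp_LB R (by norm_num) hM hn hL x) x y z
      simp only [List.headD_cons, st_two, dl_nil]
      refine le_trans (le_of_eq ?_) (h1.trans (le_of_eq ?_))
      · congr 1
        ring
      · unfold KM
        ring
  | succ n ih =>
    obtain ⟨B, hB0, hB⟩ := ih
    refine ⟨(n + 4 : ℕ) * (B * KM R (n + 3) (rr R.T n) 1), ?_, ?_⟩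
    · have := KM_nonneg R (n + 3) (rr R.T n) zero_le_one
      positivity
    intro c M hM hn h hL L hl
    rw [st_big R o c (by omega), mul_assoc, ← show L.length = n + 4 from hl]
    refine abs_dl_le fun i hi => ?_
    have h2 := length_face hi
    have h3 := hB _ _ (KM_nonneg R (n + 3) (rr R.T n) hM) (nrm_Kp R (L.headD o) hn)
      (C1_Kp R _ h hn) (Kp_LB R (by omega) hM hn hL (L.headD o)) (L.eraseIdx i) (by omega)
    refine h3.trans (le_of_eq ?_)
    unfold KM
    ring

/-- Lipschitz in one variable on lists of diameter at most `2 r`. -/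
theorem LB_of_one {n : ℕ} {r M : ℝ} (hM : 0 ≤ M) {c : List X → ℝ}
    (h : ∀ (l₁ l₂ : List X) (a b : X), l₁.length + l₂.length + 1 = n → Dm (2 * r) (l₁ ++ a :: l₂) →
      Dm (2 * r) (l₁ ++ b :: l₂) → |c (l₁ ++ a :: l₂) - c (l₁ ++ b :: l₂)| ≤ M * dist a b) :
    LB n r (n * M) c := by
  intro δ l l' hl hF hD hD' hδ
  have key : ∀ (m m' : List X), List.Forall₂ (fun a b => dist a b ≤ δ) m m' → ∀ pre : List X,
      (pre ++ m).length = n → Dm (2 * r) (pre ++ (m ++ m')) →
      |c (pre ++ m) - c (pre ++ m')| ≤ m.length * (M * δ) := by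
    intro m m' hm
    induction hm with
    | nil =>
      intro pre _ _
      simp
    | @cons a b m m' hab hmm ih =>
      intro pre hpre hDD
      have hsub : ∀ s : List X, (∀ x ∈ s, x ∈ pre ++ (a :: m ++ b :: m')) → Dm (2 * r) s :=
        fun s hs x hx y hy => hDD x (hs x hx) y (hs y hy)
      have h1 : |c (pre ++ a :: m) - c (pre ++ b :: m)| ≤ M * δ := by
        refine (h pre m a b ?_ (hsub _ ?_) (hsub _ ?_)).trans (mul_le_mul_of_nonneg_left hab hM)
        · rw [← hpre, List.length_append, List.length_cons]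
          ring
        · intro x hx
          simp only [List.mem_append, List.mem_cons] at hx ⊢
          tauto
        · intro x hx
          simp only [List.mem_append, List.mem_cons] at hx ⊢
          tauto
      have h2 := ih (pre ++ [b]) (by
        rw [← hpre]
        simp only [List.length_append, List.length_cons, List.length_nil]
        ring) (hsub _ (by
          intro x hx
          simp only [List.mem_append, List.mem_cons, List.not_mem_nil, or_false] at hx ⊢
          tauto))
      rw [List.append_assoc, List.append_assoc, List.singleton_append, List.singleton_append] at h2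
      have h3 := abs_sub_le (c (pre ++ a :: m)) (c (pre ++ b :: m)) (c (pre ++ b :: m'))
      rw [List.length_cons]
      push_cast
      linarith
  have hall : Dm (2 * r) ([] ++ (l ++ l')) := by
    obtain ⟨hlen, hzip⟩ := List.forall₂_iff_zip.1 hF
    have hpart : ∀ z ∈ l, ∃ z' ∈ l', dist z z' ≤ δ := by
      intro z hz
      obtain ⟨i, hi, rfl⟩ := List.getElem_of_mem hz
      refine ⟨l'[i]'(hlen ▸ hi), List.getElem_mem _, hzip ?_⟩
      rw [List.mem_iff_getElem]
      exact ⟨i, by simp [hlen ▸ hi, hi], by simp⟩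
    have hr : ∀ z ∈ l, 0 ≤ r := fun z hz => by
      have := hD z hz z hz
      rwa [dist_self] at this
    have hr' : ∀ z ∈ l', 0 ≤ r := fun z hz => by
      have := hD' z hz z hz
      rwa [dist_self] at this
    have hll : ∀ z ∈ l, ∀ w ∈ l', dist z w ≤ 2 * r := by
      intro z hz w hw
      obtain ⟨z', hz', h1⟩ := hpart z hz
      have h2 := dist_triangle z z' w
      have h3 := hD' z' hz' w hw
      linarith
    intro z hz w hw
    rw [List.nil_append] at hz hw
    rcases List.mem_append.1 hz with hz | hz <;> rcases List.mem_append.1 hw with hw | hw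
    · exact (hD z hz w hw).trans (by linarith [hr z hz])
    · exact hll z hz w hw
    · rw [dist_comm]
      exact hll w hw z hz
    · exact (hD' z hz w hw).trans (by linarith [hr' z hz])
  have h4 := key l l' hF [] (by simpa using hl) hall
  rw [List.nil_append, List.nil_append, hl] at h4
  rw [mul_assoc]
  exact h4

/-- The bound in terms of the Lipschitz constant in one variable. -/
theorem st_bound1 (n : ℕ) : ∃ B D : ℝ, 0 ≤ B ∧ 0 ≤ D ∧ ∀ (c : List X → ℝ) (M : ℝ), 0 ≤ M →
    Nrm c → C1 c →
    (∀ (l₁ l₂ : List X) (a b : X), l₁.length + l₂.length + 1 = n + 3 → Dm D (l₁ ++ a :: l₂) →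
      Dm D (l₁ ++ b :: l₂) → |c (l₁ ++ a :: l₂) - c (l₁ ++ b :: l₂)| ≤ M * dist a b) →
    ∀ L : List X, L.length = n + 3 → |st R o c L| ≤ B * M := by
  obtain ⟨B, hB, h⟩ := st_bound R o n
  have hr : ∀ m, 0 ≤ rr R.T m := by
    intro m
    have hT := R.T_nonneg
    induction m with
    | zero =>
      unfold rr
      linarith
    | succ m ih =>
      unfold rr
      linarith
  refine ⟨B * (n + 3 : ℕ), 2 * rr R.T n, by positivity, by linarith [hr n], ?_⟩
  intro c M hM hn hc h1 L hL
  rw [mul_assoc]
  exact h c _ (by positivity) hn hc (LB_of_one hM h1) L hL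

end Pool.Agent.Helper14.SJ
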