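import Pool.Agent.Helper14.SJ.Kp

/-!
# Block SJ: continuity
-/

set_option autoImplicit false

namespace Pool.Agent.Helper14.SJ

open Pool.Agent.Helper11.BC (dl)
open Pool.Agent.Helper14.BC

section general

variable {Y Z T : Type} [TopologicalSpace Y] [TopologicalSpace Z] [TopologicalSpace T]

theorem Cn.eval {c : Y → List T → ℝ} (h : Cn c) {k : ℕ} {f : Z → Y} {x : Z → Fin k → T}
    (hf : Continuous f) (hx : Continuous x) : Continuous fun z => c (f z) (List.ofFn (x z)) :=
  (h k).comp (hf.prodMk hx)

theorem C1.cn {c : List T → ℝ} (h : C1 c) : Cn fun _ : Y => c := fun k =>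
  (h k).comp continuous_snd

theorem Cn.c1 {c : Y → List T → ℝ} (h : Cn c) (y : Y) : C1 (c y) := fun _ =>
  h.eval continuous_const continuous_id

theorem Cn.comp {c : Y → List T → ℝ} (h : Cn c) {f : Z → Y} (hf : Continuous f) :
    Cn fun z => c (f z) := fun _ => h.eval (hf.comp continuous_fst) continuous_snd

theorem Cn.cons {c : Y → List T → ℝ} (h : Cn c) {f : Z → Y} {t : Z → T} (hf : Continuous f)
    (ht : Continuous t) : Cn fun (z : Z) (l : List T) => c (f z) (t z :: l) := by
  intro k
  have h1 : (fun q : Z × (Fin k → T) => c (f q.1) (t q.1 :: List.ofFn q.2)) =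
      fun q : Z × (Fin k → T) => c (f q.1) (List.ofFn (Fin.cons (t q.1) q.2 : Fin (k + 1) → T)) := by
    funext q
    rw [List.ofFn_cons]
  rw [h1]
  refine h.eval (hf.comp continuous_fst) ?_
  exact Continuous.finCons (ht.comp continuous_fst) continuous_snd

theorem Cn_sub {c c' : Y → List T → ℝ} (h : Cn c) (h' : Cn c') : Cn fun y l => c y l - c' y l :=
  fun k => (h k).sub (h' k)

theorem Cn_dl {c : Y → List T → ℝ} (h : Cn c) : Cn fun y => dl (c y) := by
  intro k
  induction k generalizing Y c with
  | zero =>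
    simp only [List.ofFn_zero]
    exact continuous_const
  | succ k ih =>
    have h1 : (fun q : Y × (Fin (k + 1) → T) => dl (c q.1) (List.ofFn q.2)) =
        fun q : Y × (Fin (k + 1) → T) => c q.1 (List.ofFn (Fin.tail q.2)) -
          dl (fun l => c q.1 (q.2 0 :: l)) (List.ofFn (Fin.tail q.2)) := by
      funext q
      rw [List.ofFn_succ, dl_cons]
      rfl
    rw [h1]
    have ht : Continuous fun q : Y × (Fin (k + 1) → T) => Fin.tail q.2 :=
      continuous_pi fun i => (continuous_apply _).comp continuous_snd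
    refine Continuous.sub (h.eval continuous_fst ht) ?_
    have h2 := ih (Y := Y × T) (c := fun y l => c y.1 (y.2 :: l))
      (h.cons continuous_fst continuous_snd)
    exact h2.comp ((continuous_fst.prodMk ((continuous_apply 0).comp continuous_snd)).prodMk ht)

end general

section radial

variable {Y G X : Type} [TopologicalSpace Y] [Group G] [MetricSpace X] [MulAction G X]
  (R : Rad G X)

theorem Cn_pr {c : Y → List X → ℝ} (h : Cn c) {φ ψ : Y → X → X}
    (hφ : Continuous fun q : Y × X => φ q.1 q.2) (hψ : Continuous fun q : Y × X => ψ q.1 q.2) :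
    Cn fun y => pr (φ y) (ψ y) (c y) := by
  intro k
  induction k generalizing Y c with
  | zero =>
    simp only [List.ofFn_zero, pr_nil]
    exact continuous_const
  | succ k ih =>
    have h1 : (fun q : Y × (Fin (k + 1) → X) =>
        pr (φ q.1) (ψ q.1) (c q.1) (List.ofFn q.2)) =
        fun q : Y × (Fin (k + 1) → X) =>
          c q.1 (φ q.1 (q.2 0) :: ψ q.1 (q.2 0) :: List.ofFn fun i => ψ q.1 (q.2 i.succ)) -
          pr (φ q.1) (ψ q.1) (fun l => c q.1 (φ q.1 (q.2 0) :: l))
            (List.ofFn (Fin.tail q.2)) := by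
      funext q
      rw [List.ofFn_succ, pr_cons, List.map_ofFn]
      rfl
    rw [h1]
    have h0 : Continuous fun q : Y × (Fin (k + 1) → X) => q.2 0 :=
      (continuous_apply 0).comp continuous_snd
    have ht : Continuous fun q : Y × (Fin (k + 1) → X) => Fin.tail q.2 :=
      continuous_pi fun i => (continuous_apply _).comp continuous_snd
    refine Continuous.sub ?_ ?_
    · refine ((h.cons (Z := Y × (Fin (k + 1) → X)) continuous_fst
        (hφ.comp (continuous_fst.prodMk h0))).cons continuous_id
        (hψ.comp (continuous_fst.prodMk h0))).eval (Z := Y × (Fin (k + 1) → X)) continuous_id ?_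
      exact continuous_pi fun i => hψ.comp (continuous_fst.prodMk
        ((continuous_apply _).comp continuous_snd))
    · have h2 := ih (Y := Y × X) (c := fun y l => c y.1 (φ y.1 y.2 :: l))
        (φ := fun y => φ y.1) (ψ := fun y => ψ y.1)
        (h.cons continuous_fst (hφ.comp (continuous_fst.prodMk continuous_snd)))
        (hφ.comp ((continuous_fst.comp continuous_fst).prodMk continuous_snd))
        (hψ.comp ((continuous_fst.comp continuous_fst).prodMk continuous_snd))
      exact h2.comp ((continuous_fst.prodMk h0).prodMk ht)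

/-- The cone operator is continuous, in the apex too: near a given point all distances
`dist p (x i)` are less than a fixed `N`, so `Kp` is the sum over `j < N` (`KK_eq`, `R.high`) of
functions that are continuous by `Cn.pr`. -/
theorem Cn_Kp {c : Y → List X → ℝ} (h : Cn c) (hn : ∀ y, Nrm (c y)) :
    Cn fun (q : Y × X) => Kp R q.2 (c q.1) := by
  intro k
  rw [continuous_iff_continuousAt]
  rintro ⟨⟨y₀, p₀⟩, x₀⟩
  obtain ⟨N, hN⟩ := exists_nat_gt (∑ i, dist p₀ (x₀ i))
  have hlt : ∀ i, dist p₀ (x₀ i) < N := fun i =>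
    lt_of_le_of_lt (Finset.single_le_sum (f := fun i => dist p₀ (x₀ i))
      (fun _ _ => dist_nonneg) (Finset.mem_univ i)) hN
  have h1 : ∀ᶠ q : (Y × X) × (Fin k → X) in nhds ((y₀, p₀), x₀), ∀ i, dist q.1.2 (q.2 i) < N := by
    rw [Filter.eventually_all]
    intro i
    have hc : Continuous fun q : (Y × X) × (Fin k → X) => dist q.1.2 (q.2 i) :=
      (continuous_snd.comp continuous_fst).dist ((continuous_apply i).comp continuous_snd)
    exact hc.continuousAt.eventually_lt continuousAt_const (hlt i)
  have h2 : (fun q : (Y × X) × (Fin k → X) => Kp R q.1.2 (c q.1.1)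
      (List.ofFn q.2)) =ᶠ[nhds ((y₀, p₀), x₀)] fun q => ∑ j ∈ Finset.range N,
        pr (R.Ps q.1.2 j) (R.Ps q.1.2 ((j + 1 : ℕ) : ℝ)) (c q.1.1)
          (List.ofFn q.2) := by
    filter_upwards [h1] with q hq
    refine KK_eq (P := fun j => R.Ps q.1.2 j) (hn _) fun j hj z hz => ?_
    obtain ⟨i, rfl⟩ := (List.mem_ofFn' _ _).1 hz
    refine R.high _ _ _ ((hq i).le.trans ?_)
    exact_mod_cast hj
  refine ContinuousAt.congr ?_ h2.symm
  refine Continuous.continuousAt ?_
  refine continuous_finsetSum _ fun j _ => ?_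
  have hφ : ∀ t : ℝ, Continuous fun q : (Y × X) × X => R.Ps q.1.2 t q.2 := fun t =>
    R.cont.comp ((continuous_snd.comp continuous_fst).prodMk
      (continuous_const.prodMk continuous_snd))
  exact (Cn_pr (Y := Y × X) (h.comp continuous_fst) (φ := fun y => R.Ps y.2 j)
    (ψ := fun y => R.Ps y.2 ((j + 1 : ℕ) : ℝ)) (hφ _) (hφ _)) k

end radial

end Pool.Agent.Helper14.SJ
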