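import Pool.Agent.Helper14.BC.Alg

/-!
# Project BC-II, block SJ: surjectivity of the comparison map in all degrees `k ≥ 2`

Definitions.  All cochains are real functions on lists.  Proof: note 1958 on MP_6f8b02_al.
-/

set_option autoImplicit false

namespace Pool.Agent.Helper14.SJ

open Pool.Agent.Helper11.BC (dl)

/-- Zero if two neighbours coincide. -/
def Nrm {T : Type*} (c : List T → ℝ) : Prop :=
  ∀ (l₁ l₂ : List T) (x : T), c (l₁ ++ x :: x :: l₂) = 0

/-- Jointly continuous on the lists of every length, with a parameter. -/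
def Cn {Y T : Type*} [TopologicalSpace Y] [TopologicalSpace T] (c : Y → List T → ℝ) : Prop :=
  ∀ k : ℕ, Continuous fun q : Y × (Fin k → T) => c q.1 (List.ofFn q.2)

/-- Continuous on the lists of every length. -/
def C1 {T : Type*} [TopologicalSpace T] (c : List T → ℝ) : Prop :=
  ∀ k : ℕ, Continuous fun x : Fin k → T => c (List.ofFn x)

section prisms

variable {X : Type*}

/-- The prism between two maps: `∑ (-1)^i c (φ z₀, …, φ zᵢ, ψ zᵢ, …, ψ z_k)`. -/
noncomputable def pr (φ ψ : X → X) : (List X → ℝ) → List X → ℝ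
  | _, [] => 0
  | c, z :: l => c (φ z :: ψ z :: l.map ψ) - pr φ ψ (fun l' => c (φ z :: l')) l

/-- The sum of the prisms of a sequence of maps (finite for normalised `c` if the sequence is
eventually the identity on the list). -/
noncomputable def KK (P : ℕ → X → X) (c : List X → ℝ) (l : List X) : ℝ :=
  ∑' j : ℕ, pr (P j) (P (j + 1)) c l

end prisms

section radial

variable (G X : Type*) [Group G] [MetricSpace X] [MulAction G X]

/-- Radial retractions: `Ps p t z` is the point of the segment `[p, z]` at distance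
`min t (dist p z)` from `p` (`p` for `t ≤ 0`). -/
structure Rad where
  Ps : X → ℝ → X → X
  C : ℝ → ℝ
  T : ℝ
  C_nonneg : ∀ R, 0 ≤ C R
  T_nonneg : 0 ≤ T
  smul : ∀ (g : G) p t z, g • Ps p t z = Ps (g • p) t (g • z)
  low : ∀ p t z, t ≤ 0 → Ps p t z = p
  high : ∀ p t z, dist p z ≤ t → Ps p t z = z
  step : ∀ p s t z, dist (Ps p s z) (Ps p t z) ≤ |s - t|
  lip : ∀ p t z z', dist (Ps p t z) (Ps p t z') ≤ 2 * dist z z'
  contr : ∀ R p t z z', dist z z' ≤ R →
    dist (Ps p t z) (Ps p t z') ≤ C R * Real.exp (t - dist p z) * dist z z'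
  cont : Continuous fun q : X × ℝ × X => Ps q.1 q.2.1 q.2.2
  rev : ∀ x y t, Ps y (dist x y - t) x = Ps x t y
  thin : ∀ x y z t, t ≤ (dist x y + dist x z - dist y z) / 2 →
    dist (Ps x t y) (Ps x t z) ≤ T * Real.exp (t - (dist x y + dist x z - dist y z) / 2)

variable {G X}

/-- The cone operator with apex `p`. -/
noncomputable def Kp (R : Rad G X) (p : X) (c : List X → ℝ) : List X → ℝ :=
  KK (fun j => R.Ps p j) c

/-- The value on the segment from `x` to `y`: the average over all shifts of the subdivisions with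
step `1`, antisymmetric in `x`, `y`. -/
noncomputable def base (R : Rad G X) (c : List X → ℝ) (x y : X) : ℝ :=
  1 / 2 * ∫ t in (-1 : ℝ)..(dist x y),
    (c [R.Ps x t y, R.Ps x (t + 1) y] - c [R.Ps x (t + 1) y, R.Ps x t y])

/-- Lists with at most two elements. -/
noncomputable def st0 (R : Rad G X) (c : List X → ℝ) : List X → ℝ
  | [] => c []
  | [x] => c [x]
  | x :: y :: _ => base R c x y

/-- The recursion of the straightening, `k` steps. -/
noncomputable def stk (R : Rad G X) (o : X) : ℕ → (List X → ℝ) → List X → ℝ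
  | 0, c, L => st0 R c L
  | k + 1, c, L => dl (stk R o k (Kp R (L.headD o) c)) L

/-- The straightening. -/
noncomputable def st (R : Rad G X) (o : X) (c : List X → ℝ) (L : List X) : ℝ :=
  stk R o (L.length - 2) c L

/-- All distances in the list are at most `R`. -/
def Dm {X : Type*} [MetricSpace X] (R : ℝ) (l : List X) : Prop :=
  ∀ x ∈ l, ∀ y ∈ l, dist x y ≤ R

/-- Lipschitz with the constant `M` on the lists with `n` elements of diameter at most `r`. -/
def LB {X : Type*} [MetricSpace X] (n : ℕ) (r M : ℝ) (c : List X → ℝ) : Prop :=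
  ∀ (δ : ℝ) (l l' : List X), l.length = n → List.Forall₂ (fun a b => dist a b ≤ δ) l l' →
    Dm r l → Dm r l' → δ ≤ r → |c l - c l'| ≤ M * δ

end radial

end Pool.Agent.Helper14.SJ
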