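import Pool.Agent.Helper14.SJ.Pr

/-!
# Block SJ: the cone operator with apex `p`
-/

set_option autoImplicit false

namespace Pool.Agent.Helper14.SJ

open Pool.Agent.Helper11.BC (dl)
open Pool.Agent.Helper14.BC

variable {G X : Type*} [Group G] [MetricSpace X] [MulAction G X] (R : Rad G X)

theorem ev_id (p : X) (l : List X) : ∃ N : ℕ, ∀ j, N ≤ j → ∀ z ∈ l, R.Ps p j z = z := by
  induction l with
  | nil => exact ⟨0, fun j _ z hz => by simp at hz⟩
  | cons x l ih =>
    obtain ⟨N, hN⟩ := ih
    obtain ⟨N', hN'⟩ := exists_nat_ge (dist p x)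
    refine ⟨max N N', fun j hj z hz => ?_⟩
    rcases List.mem_cons.1 hz with rfl | hz
    · refine R.high _ _ _ (hN'.trans ?_)
      exact_mod_cast (le_max_right N N').trans hj
    · exact hN j ((le_max_left N N').trans hj) z hz

theorem Kp_congr (p : X) {c c' : List X → ℝ} {l : List X}
    (h : ∀ l' : List X, l'.length = l.length + 1 → c l' = c' l') : Kp R p c l = Kp R p c' l :=
  KK_congr _ h

theorem nrm_Kp (p : X) {c : List X → ℝ} (h : Nrm c) : Nrm (Kp R p c) := nrm_KK h

theorem Kp_sub (p : X) {c c' : List X → ℝ} (h : Nrm c) (h' : Nrm c') (l : List X) :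
    Kp R p (fun l => c l - c' l) l = Kp R p c l - Kp R p c' l :=
  KK_sub h h' (ev_id R p l)

theorem Kp_map (g : G) (p : X) (c : List X → ℝ) (l : List X) :
    Kp R (g • p) c (l.map (g • ·)) = Kp R p (fun l => c (l.map (g • ·))) l :=
  KK_map (g • ·) (fun j z => (R.smul g p j z).symm) c l

theorem Kp_dl (p : X) {c : List X → ℝ} (h : Nrm c) {l : List X} (hl : 2 ≤ l.length) :
    Kp R p (dl c) l = c l - dl (Kp R p c) l := by
  have h1 := KK_dl (P := fun j => R.Ps p j) (p := p)
    (fun z => R.low p _ z (by simp)) h (ev_id R p l)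
  have h2 : c (l.map fun _ => p) = 0 := by
    match l, hl with
    | x :: y :: l, _ => exact h [] _ _
  unfold Kp
  rw [h1, h2, sub_zero]

end Pool.Agent.Helper14.SJ
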