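import Pool.Agent.Helper14.SJ.Kp

/-!
# Block SJ: the cone operator preserves the Lipschitz classes
-/

set_option autoImplicit false

namespace Pool.Agent.Helper14.SJ

open Pool.Agent.Helper11.BC (dl)
open Pool.Agent.Helper14.BC

/-- Comparison of the prisms of two lists. -/
theorem pr_cmp {X : Type*} (φ ψ : X → X) (P P' : X → Prop) (Q : X → X → Prop) (ε : ℝ)
    (l l' : List X) (hl : ∀ z ∈ l, P (φ z) ∧ P (ψ z)) (hl' : ∀ z ∈ l', P' (φ z) ∧ P' (ψ z))
    (h : List.Forall₂ (fun z z' => Q (φ z) (φ z') ∧ Q (ψ z) (ψ z')) l l') (c c' : List X → ℝ)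
    (hc : ∀ m m' : List X, m.length = l.length + 1 → List.Forall₂ Q m m' → (∀ z ∈ m, P z) →
      (∀ z ∈ m', P' z) → |c m - c' m'| ≤ ε) :
    |pr φ ψ c l - pr φ ψ c' l'| ≤ l.length * ε := by
  induction h generalizing c c' with
  | nil => simp
  | @cons z z' l l' hz h ih =>
    have h1 : |c (φ z :: ψ z :: l.map ψ) - c' (φ z' :: ψ z' :: l'.map ψ)| ≤ ε := by
      refine hc _ _ (by simp) (List.Forall₂.cons hz.1 (List.Forall₂.cons hz.2 ?_)) ?_ ?_
      · rw [List.forall₂_map_left_iff, List.forall₂_map_right_iff]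
        exact h.imp fun _ _ hx => hx.2
      · intro x hx
        rcases List.mem_cons.1 hx with rfl | hx
        · exact (hl _ (by simp)).1
        rcases List.mem_cons.1 hx with rfl | hx
        · exact (hl _ (by simp)).2
        obtain ⟨y, hy, rfl⟩ := List.mem_map.1 hx
        exact (hl y (by simp [hy])).2
      · intro x hx
        rcases List.mem_cons.1 hx with rfl | hx
        · exact (hl' _ (by simp)).1
        rcases List.mem_cons.1 hx with rfl | hx
        · exact (hl' _ (by simp)).2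
        obtain ⟨y, hy, rfl⟩ := List.mem_map.1 hx
        exact (hl' y (by simp [hy])).2
    have key := ih (fun x hx => hl x (List.mem_cons_of_mem _ hx))
      (fun x hx => hl' x (List.mem_cons_of_mem _ hx)) (fun m => c (φ z :: m))
      (fun m => c' (φ z' :: m)) (fun m m' hm hQ h2 h3 => by
        refine hc _ _ (by simp [hm]) (List.Forall₂.cons hz.1 hQ) ?_ ?_
        · intro x hx
          rcases List.mem_cons.1 hx with rfl | hx
          · exact (hl _ (by simp)).1
          · exact h2 x hx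
        · intro x hx
          rcases List.mem_cons.1 hx with rfl | hx
          · exact (hl' _ (by simp)).1
          · exact h3 x hx)
    rw [pr_cons, pr_cons, List.length_cons]
    push_cast
    rw [abs_le] at *
    constructor <;> linarith [h1.1, h1.2, key.1, key.2]

variable {G X : Type*} [Group G] [MetricSpace X] [MulAction G X] (R : Rad G X)

/-- `∑_{j < N} e^{j - D} ≤ 2` if `N < D + 1`. -/
theorem geo_sum {D : ℝ} {N : ℕ} (h : (N : ℝ) < D + 1) :
    ∑ j ∈ Finset.range N, Real.exp ((j : ℝ) - D) ≤ 2 := by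
  have h0 : Real.exp (-1) ≤ 1 / 2 := by
    rw [Real.exp_neg, one_div]
    refine inv_anti₀ (by norm_num) ?_
    have := Real.add_one_le_exp 1
    linarith
  have h1 : ∀ j ∈ Finset.range N, Real.exp ((j : ℝ) - D) ≤ (1 / 2 : ℝ) ^ (N - 1 - j) := by
    intro j hj
    rw [Finset.mem_range] at hj
    have h2 : (j : ℝ) - D ≤ ((N - 1 - j : ℕ) : ℝ) * (-1) := by
      have h3 : ((N - 1 - j : ℕ) : ℝ) = (N : ℝ) - 1 - j := by
        have : N - 1 - j + 1 + j = N := by omega
        have h4 : ((N - 1 - j + 1 + j : ℕ) : ℝ) = (N : ℝ) := by exact_mod_cast this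
        push_cast at h4 ⊢
        linarith
      rw [h3]
      linarith
    refine (Real.exp_le_exp.2 h2).trans ?_
    rw [Real.exp_nat_mul]
    exact pow_le_pow_left₀ (Real.exp_pos _).le h0 _
  refine (Finset.sum_le_sum h1).trans ?_
  rw [Finset.sum_range_reflect (fun i => (1 / 2 : ℝ) ^ i) N]
  have h3 := (hasSum_geometric_two).summable.sum_le_tsum (Finset.range N) fun i _ => by positivity
  rwa [tsum_geometric_two] at h3

/-- The constant of the next theorem. -/
noncomputable def KM (n : ℕ) (r M : ℝ) : ℝ :=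
  n * (M * (R.C r * Real.exp (2 * r + 1) * 2))

theorem KM_nonneg (n : ℕ) (r : ℝ) {M : ℝ} (hM : 0 ≤ M) : 0 ≤ KM R n r M := by
  have h2 := R.C_nonneg r
  unfold KM
  positivity

/-- PIECE SJ-KpL.  Let `D` be the maximum of `dist p z` over the elements of `l`, `l'`, `N = ⌈D⌉`
(so `N < D + 1`); for `j ≥ N` both prisms vanish (`KK_eq`).  For `j < N` apply `pr_cmp` with
`φ = Ps p j`, `ψ = Ps p (j+1)`, `P w = ∃ z ∈ l, w = φ z ∨ w = ψ z` (then lists with `P` have
diameter `≤ 2 r + 1`: `R.lip`, `R.step`), `Q a b = dist a b ≤ δ_j`,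
`δ_j = min (2 δ) (C r * exp (j + 1 - (D - 2 r)) * δ)` (`R.lip`, `R.contr`; all points of `l`, `l'` are
within `2 r` of each other, so `dist p z ≥ D - 2 r`), `ε = M * δ_j`.  Sum with `geo_sum`. -/
theorem Kp_LB {n : ℕ} (hn : 1 ≤ n) {r M : ℝ} (hM : 0 ≤ M) {c : List X → ℝ} (h : Nrm c)
    (hc : LB (n + 1) (2 * r + 1) M c) (p : X) : LB n r (KM R n r M) (Kp R p c) := by
  classical
  intro δ l l' hl hF hD hD' hδ
  obtain ⟨hlen, hzip⟩ := List.forall₂_iff_zip.1 hF
  -- all points are within `2 r` of each other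
  have hne : l ≠ [] := by
    rintro rfl
    simp at hl
    omega
  obtain ⟨x₀, hx₀⟩ := List.exists_mem_of_ne_nil l hne
  have hpart : ∀ z ∈ l, ∃ z' ∈ l', dist z z' ≤ δ := by
    intro z hz
    obtain ⟨i, hi, rfl⟩ := List.getElem_of_mem hz
    refine ⟨l'[i]'(hlen ▸ hi), List.getElem_mem _, hzip ?_⟩
    rw [List.mem_iff_getElem]
    exact ⟨i, by simp [hlen ▸ hi, hi], by simp⟩
  have hδ0 : 0 ≤ δ := by
    obtain ⟨z', -, h1⟩ := hpart x₀ hx₀
    exact dist_nonneg.trans h1
  have hr : 0 ≤ r := hδ0.trans hδ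
  have hmem : ∀ z ∈ l ++ l', ∀ w ∈ l ++ l', dist z w ≤ 2 * r := by
    have hll : ∀ z ∈ l, ∀ w ∈ l', dist z w ≤ 2 * r := by
      intro z hz w hw
      obtain ⟨z', hz', h1⟩ := hpart z hz
      have h2 := dist_triangle z z' w
      have h3 := hD' z' hz' w hw
      linarith
    intro z hz w hw
    rcases List.mem_append.1 hz with hz | hz <;> rcases List.mem_append.1 hw with hw | hw
    · exact (hD z hz w hw).trans (by linarith)
    · exact hll z hz w hw
    · rw [dist_comm]
      exact hll w hw z hz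
    · exact (hD' z hz w hw).trans (by linarith)
  -- the maximal distance
  obtain ⟨z₀, hz₀, hmax⟩ := Finset.exists_max_image (l ++ l').toFinset (fun z => dist p z)
    ⟨x₀, by simp [hx₀]⟩
  rw [List.mem_toFinset] at hz₀
  set D := dist p z₀ with hDdef
  have hmax' : ∀ z ∈ l ++ l', dist p z ≤ D := fun z hz => hmax z (List.mem_toFinset.2 hz)
  have hmin : ∀ z ∈ l ++ l', D - 2 * r ≤ dist p z := by
    intro z hz
    have h1 := dist_triangle p z z₀
    have h2 := hmem z hz z₀ hz₀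
    linarith
  set N := ⌈D⌉₊ with hN
  have hN1 : (N : ℝ) < D + 1 := Nat.ceil_lt_add_one dist_nonneg
  have hN2 : D ≤ N := Nat.le_ceil D
  have hid : ∀ j : ℕ, N ≤ j → ∀ z ∈ l ++ l', R.Ps p j z = z := fun j hj z hz =>
    R.high _ _ _ ((hmax' z hz).trans (hN2.trans (by exact_mod_cast hj)))
  have e1 : Kp R p c l = ∑ j ∈ Finset.range N,
      pr (R.Ps p j) (R.Ps p ((j + 1 : ℕ) : ℝ)) c l :=
    KK_eq (P := fun j => R.Ps p j) h fun j hj z hz => hid j hj z (List.mem_append_left _ hz)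
  have e2 : Kp R p c l' = ∑ j ∈ Finset.range N,
      pr (R.Ps p j) (R.Ps p ((j + 1 : ℕ) : ℝ)) c l' :=
    KK_eq (P := fun j => R.Ps p j) h fun j hj z hz => hid j hj z (List.mem_append_right _ hz)
  rw [e1, e2, ← Finset.sum_sub_distrib]
  refine (Finset.abs_sum_le_sum_abs _ _).trans ?_
  have hC := R.C_nonneg r
  have hterm : ∀ j ∈ Finset.range N, |pr (R.Ps p j) (R.Ps p ((j + 1 : ℕ) : ℝ)) c l -
      pr (R.Ps p j) (R.Ps p ((j + 1 : ℕ) : ℝ)) c l'| ≤
      (n * (M * (R.C r * Real.exp (2 * r + 1))) * δ) * Real.exp ((j : ℝ) - D) := by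
    intro j _
    set δj := min (2 * δ) (R.C r * Real.exp (j + 1 - (D - 2 * r)) * δ) with hδj
    have hQ : ∀ t : ℝ, t ≤ j + 1 → ∀ z z' : X, (z, z') ∈ l.zip l' →
        dist (R.Ps p t z) (R.Ps p t z') ≤ δj := by
      intro t ht z z' hzz
      have h1 := hzip hzz
      obtain ⟨h2, h3⟩ := List.of_mem_zip hzz
      refine le_min ((R.lip _ _ _ _).trans (by linarith)) ((R.contr r _ _ _ _ (h1.trans hδ)).trans ?_)
      have h4 := hmin z (List.mem_append_left _ h2)
      have h5 : Real.exp (t - dist p z) ≤ Real.exp (j + 1 - (D - 2 * r)) :=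
        Real.exp_le_exp.2 (by linarith)
      exact mul_le_mul (mul_le_mul_of_nonneg_left h5 hC) h1 dist_nonneg (by positivity)
    have hdm : ∀ (L : List X), Dm r L → ∀ m : List X,
        (∀ w ∈ m, ∃ z ∈ L, w = R.Ps p j z ∨ w = R.Ps p ((j + 1 : ℕ) : ℝ) z) → Dm (2 * r + 1) m := by
      intro L hL m hm x hx y hy
      have hst : ∀ z : X, dist (R.Ps p j z) (R.Ps p ((j + 1 : ℕ) : ℝ) z) ≤ 1 := by
        intro z
        refine (R.step _ _ _ _).trans ?_
        push_cast
        rw [sub_add_cancel_left, abs_neg, abs_one]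
      obtain ⟨z, hz, hxz⟩ := hm x hx
      obtain ⟨w, hw, hyw⟩ := hm y hy
      have h1 := hL z hz w hw
      have h2 := R.lip p j z w
      have h3 := R.lip p ((j + 1 : ℕ) : ℝ) z w
      have h4 := hst z
      have h5 := hst w
      rcases hxz with rfl | rfl <;> rcases hyw with rfl | rfl
      · linarith
      · have := dist_triangle (R.Ps p j z) (R.Ps p j w) (R.Ps p ((j + 1 : ℕ) : ℝ) w)
        linarith
      · have := dist_triangle (R.Ps p ((j + 1 : ℕ) : ℝ) z) (R.Ps p j z) (R.Ps p j w)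
        rw [dist_comm (R.Ps p ((j + 1 : ℕ) : ℝ) z) (R.Ps p j z)] at this
        linarith
      · linarith
    have h1 := pr_cmp (R.Ps p j) (R.Ps p ((j + 1 : ℕ) : ℝ))
      (fun w => ∃ z ∈ l, w = R.Ps p j z ∨ w = R.Ps p ((j + 1 : ℕ) : ℝ) z)
      (fun w => ∃ z ∈ l', w = R.Ps p j z ∨ w = R.Ps p ((j + 1 : ℕ) : ℝ) z)
      (fun a b => dist a b ≤ δj) (M * δj) l l'
      (fun z hz => ⟨⟨z, hz, Or.inl rfl⟩, ⟨z, hz, Or.inr rfl⟩⟩)
      (fun z hz => ⟨⟨z, hz, Or.inl rfl⟩, ⟨z, hz, Or.inr rfl⟩⟩)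
      (List.forall₂_iff_zip.2 ⟨hlen, fun {a b} hab => ⟨hQ j (by linarith) a b hab,
        hQ _ (by push_cast; exact le_rfl) a b hab⟩⟩) c c
      (fun m m' hm hQm hPm hPm' => hc δj m m' (by rw [hm, hl]) hQm (hdm l hD m hPm)
        (hdm l' hD' m' hPm') ((min_le_left _ _).trans (by linarith)))
    refine h1.trans ?_
    rw [hl]
    have h2 : δj ≤ R.C r * Real.exp (2 * r + 1) * Real.exp ((j : ℝ) - D) * δ := by
      refine (min_le_right _ _).trans (le_of_eq ?_)
      have h6 : Real.exp ((j : ℝ) + 1 - (D - 2 * r)) =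
          Real.exp (2 * r + 1) * Real.exp ((j : ℝ) - D) := by
        rw [← Real.exp_add]
        congr 1
        ring
      rw [h6]
      ring
    have h3 := mul_le_mul_of_nonneg_left h2 (hM)
    have h4 := mul_le_mul_of_nonneg_left h3 (Nat.cast_nonneg (α := ℝ) n)
    refine h4.trans (le_of_eq ?_)
    ring
  refine (Finset.sum_le_sum hterm).trans ?_
  rw [← Finset.mul_sum]
  have h5 : 0 ≤ n * (M * (R.C r * Real.exp (2 * r + 1))) * δ := by
    have := hM
    positivity
  refine (mul_le_mul_of_nonneg_left (geo_sum hN1) h5).trans (le_of_eq ?_)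
  unfold KM
  ring

end Pool.Agent.Helper14.SJ
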