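import Pool.Agent.Helper14.SJ.Defs

/-!
# Block SJ: the prism operator and the cone operator
-/

set_option autoImplicit false

namespace Pool.Agent.Helper14.SJ

open Pool.Agent.Helper11.BC (dl)
open Pool.Agent.Helper14.BC

variable {X X' : Type*}

theorem pr_cons (φ ψ : X → X) (c : List X → ℝ) (z : X) (l : List X) :
    pr φ ψ c (z :: l) = c (φ z :: ψ z :: l.map ψ) - pr φ ψ (fun l' => c (φ z :: l')) l := rfl

@[simp] theorem pr_nil (φ ψ : X → X) (c : List X → ℝ) : pr φ ψ c [] = 0 := rfl

theorem pr_congr (φ ψ : X → X) {c c' : List X → ℝ} {l : List X}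
    (h : ∀ l' : List X, l'.length = l.length + 1 → c l' = c' l') : pr φ ψ c l = pr φ ψ c' l := by
  induction l generalizing c c' with
  | nil => rfl
  | cons z l ih =>
    rw [pr_cons, pr_cons, h _ (by simp), ih fun l' hl => h _ (by simp [hl])]

theorem pr_sub (φ ψ : X → X) (c c' : List X → ℝ) (l : List X) :
    pr φ ψ (fun l => c l - c' l) l = pr φ ψ c l - pr φ ψ c' l := by
  induction l generalizing c c' with
  | nil => simp
  | cons z l ih =>
    rw [pr_cons, pr_cons, pr_cons, ih]
    ring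

theorem pr_smul (φ ψ : X → X) (a : ℝ) (c : List X → ℝ) (l : List X) :
    pr φ ψ (fun l => a * c l) l = a * pr φ ψ c l := by
  induction l generalizing c with
  | nil => simp
  | cons z l ih =>
    rw [pr_cons, pr_cons, ih]
    ring

theorem pr_zero (φ ψ : X → X) (l : List X) : pr φ ψ (fun _ => 0) l = 0 := by
  have := pr_smul φ ψ 0 (fun _ => (0 : ℝ)) l
  simpa using this

theorem pr_map {φ ψ : X → X} {φ' ψ' : X' → X'} (f : X → X') (hφ : ∀ z, φ' (f z) = f (φ z))
    (hψ : ∀ z, ψ' (f z) = f (ψ z)) (c : List X' → ℝ) (l : List X) :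
    pr φ' ψ' c (l.map f) = pr φ ψ (fun l => c (l.map f)) l := by
  induction l generalizing c with
  | nil => rfl
  | cons z l ih =>
    rw [List.map_cons, pr_cons, pr_cons, ih]
    have h1 : List.map ψ' (List.map f l) = List.map f (List.map ψ l) := by
      rw [List.map_map, List.map_map]
      exact List.map_congr_left fun x _ => hψ x
    rw [hφ, hψ, h1]
    rfl

/-- The homotopy formula of the prism. -/
theorem pr_dl (φ ψ : X → X) (c : List X → ℝ) (l : List X) :
    pr φ ψ (dl c) l = c (l.map ψ) - c (l.map φ) - dl (pr φ ψ c) l := by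
  induction l generalizing c with
  | nil => simp
  | cons z l ih =>
    have h1 : pr φ ψ (fun l' => dl c (φ z :: l')) l =
        pr φ ψ c l - pr φ ψ (dl fun l' => c (φ z :: l')) l := by
      rw [← pr_sub]
      exact pr_congr φ ψ fun l' _ => dl_cons _ _ _
    have h2 : dl (fun l' => pr φ ψ c (z :: l')) l =
        dl (fun l' => c (φ z :: ψ z :: l'.map ψ)) l -
          dl (fun l' => pr φ ψ (fun l'' => c (φ z :: l'')) l') l := by
      rw [← dl_sub]
      exact dl_congr fun i _ => pr_cons _ _ _ _ _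
    rw [pr_cons, h1, ih, dl_cons, dl_cons, dl_cons, dl_map, h2]
    simp only [List.map_cons]
    ring

theorem nrm_cons {T : Type*} {c : List T → ℝ} (h : Nrm c) (x : T) : Nrm fun l => c (x :: l) :=
  fun l₁ l₂ y => h (x :: l₁) l₂ y

theorem nrm_sub {T : Type*} {c c' : List T → ℝ} (h : Nrm c) (h' : Nrm c') :
    Nrm fun l => c l - c' l := fun l₁ l₂ y => by
  show c _ - c' _ = 0
  rw [h, h', sub_zero]

/-- The alternating sum over the faces of a normalised function is normalised. -/
theorem nrm_dl {T : Type*} {c : List T → ℝ} (h : Nrm c) : Nrm (dl c) := by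
  intro l₁ l₂ x
  induction l₁ generalizing c with
  | nil =>
    rw [List.nil_append, dl_cons, dl_cons]
    have h1 : dl (fun l' => c (x :: x :: l')) l₂ = dl (fun _ => (0 : ℝ)) l₂ :=
      dl_congr fun i _ => h [] _ x
    rw [h1, dl_zero]
    ring
  | cons y l₁ ih =>
    rw [List.cons_append, dl_cons, h l₁ l₂ x, ih (nrm_cons h y), sub_zero]

theorem nrm_map {c : List X' → ℝ} (h : Nrm c) (f : X → X') : Nrm fun l => c (l.map f) := by
  intro l₁ l₂ x
  show c _ = 0
  rw [List.map_append, List.map_cons, List.map_cons]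
  exact h _ _ _

theorem nrm_pr {c : List X → ℝ} (h : Nrm c) (φ ψ : X → X) : Nrm (pr φ ψ c) := by
  intro l₁ l₂ x
  induction l₁ generalizing c with
  | nil =>
    rw [List.nil_append, pr_cons, pr_cons]
    have h1 : pr φ ψ (fun l' => c (φ x :: φ x :: l')) l₂ = 0 := by
      have : pr φ ψ (fun l' => c (φ x :: φ x :: l')) l₂ = pr φ ψ (fun _ => 0) l₂ :=
        pr_congr φ ψ fun l' _ => h [] _ _
      rw [this, pr_zero]
    have h2 : c (φ x :: ψ x :: List.map ψ (x :: l₂)) = 0 := h [φ x] _ _
    have h3 : c (φ x :: φ x :: ψ x :: List.map ψ l₂) = 0 := h [] _ _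
    rw [h1, h2, h3]
    ring
  | cons y l₁ ih =>
    rw [List.cons_append, pr_cons, ih (nrm_cons h _), sub_zero]
    have := h (φ y :: ψ y :: l₁.map ψ) (l₂.map ψ) (ψ x)
    rw [List.map_append, List.map_cons, List.map_cons]
    exact this

/-- The prism is zero where both maps are the identity. -/
theorem pr_id {c : List X → ℝ} (h : Nrm c) {φ ψ : X → X} {l : List X} (hφ : ∀ z ∈ l, φ z = z)
    (hψ : ∀ z ∈ l, ψ z = z) : pr φ ψ c l = 0 := by
  induction l generalizing c with
  | nil => rfl
  | cons z l ih =>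
    rw [pr_cons, ih (nrm_cons h _) (fun x hx => hφ x (List.mem_cons_of_mem _ hx))
      (fun x hx => hψ x (List.mem_cons_of_mem _ hx)), sub_zero, hφ z (by simp), hψ z (by simp)]
    exact h [] _ _

/-! ### The sum of the prisms -/

theorem KK_eq {P : ℕ → X → X} {c : List X → ℝ} (h : Nrm c) {l : List X} {N : ℕ}
    (hN : ∀ j, N ≤ j → ∀ z ∈ l, P j z = z) :
    KK P c l = ∑ j ∈ Finset.range N, pr (P j) (P (j + 1)) c l := by
  unfold KK
  refine tsum_eq_sum fun j hj => ?_
  rw [Finset.mem_range, not_lt] at hj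
  exact pr_id h (hN j hj) (hN (j + 1) (by omega))

theorem KK_congr (P : ℕ → X → X) {c c' : List X → ℝ} {l : List X}
    (h : ∀ l' : List X, l'.length = l.length + 1 → c l' = c' l') : KK P c l = KK P c' l := by
  unfold KK
  exact tsum_congr fun j => pr_congr _ _ h

theorem nrm_KK {P : ℕ → X → X} {c : List X → ℝ} (h : Nrm c) : Nrm (KK P c) := by
  intro l₁ l₂ x
  unfold KK
  have : ∀ j, pr (P j) (P (j + 1)) c (l₁ ++ x :: x :: l₂) = 0 := fun j => nrm_pr h _ _ _ _ _
  simp only [this, tsum_zero]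

theorem KK_sub {P : ℕ → X → X} {c c' : List X → ℝ} (h : Nrm c) (h' : Nrm c') {l : List X}
    (hP : ∃ N, ∀ j, N ≤ j → ∀ z ∈ l, P j z = z) :
    KK P (fun l => c l - c' l) l = KK P c l - KK P c' l := by
  obtain ⟨N, hN⟩ := hP
  rw [KK_eq (nrm_sub h h') hN, KK_eq h hN, KK_eq h' hN, ← Finset.sum_sub_distrib]
  exact Finset.sum_congr rfl fun j _ => pr_sub _ _ _ _ _

theorem KK_map {P : ℕ → X → X} {P' : ℕ → X' → X'} (f : X → X') (hP : ∀ j z, P' j (f z) = f (P j z))
    (c : List X' → ℝ) (l : List X) : KK P' c (l.map f) = KK P (fun l => c (l.map f)) l := by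
  unfold KK
  exact tsum_congr fun j => pr_map f (hP j) (hP (j + 1)) c l

/-- The homotopy formula of the cone operator. -/
theorem KK_dl {P : ℕ → X → X} {p : X} (h0 : ∀ z, P 0 z = p) {c : List X → ℝ} (h : Nrm c)
    {l : List X} (hP : ∃ N, ∀ j, N ≤ j → ∀ z ∈ l, P j z = z) :
    KK P (dl c) l = c l - c (l.map fun _ => p) - dl (KK P c) l := by
  obtain ⟨N, hN⟩ := hP
  have h1 : dl (KK P c) l =
      dl (fun l' => ∑ j ∈ Finset.range N, pr (P j) (P (j + 1)) c l') l := by
    refine dl_congr fun i hi => KK_eq h fun j hj z hz => hN j hj z ?_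
    exact (List.eraseIdx_sublist _ _).subset hz
  have h2 : dl (fun l' => ∑ j ∈ Finset.range N, pr (P j) (P (j + 1)) c l') l =
      ∑ j ∈ Finset.range N, dl (pr (P j) (P (j + 1)) c) l := by
    unfold Pool.Agent.Helper11.BC.dl
    rw [Finset.sum_comm]
    exact Finset.sum_congr rfl fun i _ => Finset.smul_sum
  have h3 : ∑ j ∈ Finset.range N, pr (P j) (P (j + 1)) (dl c) l =
      ∑ j ∈ Finset.range N, (c (l.map (P (j + 1))) - c (l.map (P j))) -
        ∑ j ∈ Finset.range N, dl (pr (P j) (P (j + 1)) c) l := by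
    rw [← Finset.sum_sub_distrib]
    exact Finset.sum_congr rfl fun j _ => pr_dl _ _ _ _
  rw [KK_eq (nrm_dl h) hN, h1, h2, h3, Finset.sum_range_sub (fun j => c (l.map (P j)))]
  have h4 : l.map (P N) = l := by
    conv_rhs => rw [← List.map_id l]
    exact List.map_congr_left fun z hz => hN N le_rfl z hz
  have h5 : l.map (P 0) = l.map fun _ => p := List.map_congr_left fun z _ => h0 z
  rw [h4, h5]

end Pool.Agent.Helper14.SJ
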