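import Pool.Agent.Helper14.SJ.Cont

/-!
# Block SJ: the straightening (algebra and continuity)
-/

set_option autoImplicit false

namespace Pool.Agent.Helper14.SJ

open Pool.Agent.Helper11.BC (dl)
open Pool.Agent.Helper14.BC

section algebra

variable {G X : Type*} [Group G] [MetricSpace X] [MulAction G X] (R : Rad G X) (o : X)

@[simp] theorem st_nil (c : List X → ℝ) : st R o c [] = c [] := rfl

@[simp] theorem st_one (c : List X → ℝ) (x : X) : st R o c [x] = c [x] := rfl

@[simp] theorem st_two (c : List X → ℝ) (x y : X) : st R o c [x, y] = base R c x y := rfl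

theorem st_big (c : List X → ℝ) {L : List X} (h : 3 ≤ L.length) :
    st R o c L = dl (st R o (Kp R (L.headD o) c)) L := by
  obtain ⟨k, hk⟩ : ∃ k, L.length = k + 3 := ⟨L.length - 3, by omega⟩
  unfold st
  have h1 : L.length - 2 = k + 1 := by omega
  rw [h1]
  show dl (stk R o k (Kp R (L.headD o) c)) L = _
  refine dl_congr fun i hi => ?_
  have h2 := length_face hi
  have h3 : (L.eraseIdx i).length - 2 = k := by omega
  rw [h3]

/-- Only the values on lists of the same length matter. -/
theorem st_congr {c c' : List X → ℝ} {L : List X}
    (h : ∀ l : List X, l.length = L.length → c l = c' l) : st R o c L = st R o c' L := by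
  obtain ⟨n, hn⟩ : ∃ n, L.length = n := ⟨_, rfl⟩
  induction n using Nat.strong_induction_on generalizing L c c' with
  | _ n ih =>
    match L, hn with
    | [], _ => exact h [] rfl
    | [x], _ => exact h [x] rfl
    | [x, y], _ =>
      rw [st_two, st_two]
      unfold base
      congr 1
      refine intervalIntegral.integral_congr fun t _ => ?_
      show c _ - c _ = c' _ - c' _
      rw [h [_, _] (by simp), h [_, _] (by simp)]
    | x :: y :: z :: l, hn =>
      rw [st_big R o c (by simp), st_big R o c' (by simp)]
      refine dl_congr fun i hi => ?_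
      have h2 := length_face hi
      refine ih _ (by omega) (fun l' hl' => Kp_congr R _ fun l'' hl'' => h _ ?_) rfl
      omega

/-- Equivariance. -/
theorem base_map (hd : ∀ (g : G) (x y : X), dist (g • x) (g • y) = dist x y) (g : G)
    (c : List X → ℝ) (x y : X) :
    base R c (g • x) (g • y) = base R (fun l => c (l.map (g • ·))) x y := by
  unfold base
  rw [hd]
  simp only [List.map_cons, List.map_nil, R.smul]

theorem st_map (hd : ∀ (g : G) (x y : X), dist (g • x) (g • y) = dist x y) (g : G)
    (c : List X → ℝ) (L : List X) :
    st R o c (L.map (g • ·)) = st R o (fun l => c (l.map (g • ·))) L := by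
  obtain ⟨n, hn⟩ : ∃ n, L.length = n := ⟨_, rfl⟩
  induction n using Nat.strong_induction_on generalizing L c with
  | _ n ih =>
    match L, hn with
    | [], _ => rfl
    | [x], _ => rfl
    | [x, y], _ => exact base_map R hd g c x y
    | x :: y :: z :: l, hn =>
      rw [st_big R o c (by simp), st_big R o _ (by simp), dl_map]
      refine dl_congr fun i hi => ?_
      have h2 := length_face hi
      rw [ih _ (by omega) _ _ rfl]
      refine st_congr R o fun l' _ => ?_
      show Kp R (g • x) c (l'.map (g • ·)) = _
      exact Kp_map R g x c l'

end algebra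

section cont

variable {Y G X : Type} [TopologicalSpace Y] [Group G] [MetricSpace X] [MulAction G X]
  (R : Rad G X) (o : X)

theorem base_integrand_cont {Z : Type} [TopologicalSpace Z] {c : Y → List X → ℝ} (h : Cn c)
    {f : Z → Y} {x y : Z → X} {t : Z → ℝ} (hf : Continuous f) (hx : Continuous x)
    (hy : Continuous y) (ht : Continuous t) :
    Continuous fun z => c (f z) [R.Ps (x z) (t z) (y z), R.Ps (x z) (t z + 1) (y z)] -
      c (f z) [R.Ps (x z) (t z + 1) (y z), R.Ps (x z) (t z) (y z)] := by
  have h1 : Continuous fun z => R.Ps (x z) (t z) (y z) := R.cont.comp (hx.prodMk (ht.prodMk hy))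
  have h2 : Continuous fun z => R.Ps (x z) (t z + 1) (y z) :=
    R.cont.comp (hx.prodMk ((ht.add continuous_const).prodMk hy))
  have key : ∀ a b : Z → X, Continuous a → Continuous b → Continuous fun z => c (f z) [a z, b z] := by
    intro a b ha hb
    have h3 := h.eval (k := 2) (x := fun z => ![a z, b z]) hf (by
      refine continuous_pi fun i => ?_
      fin_cases i
      · exact ha
      · exact hb)
    simpa [List.ofFn_succ] using h3
  exact (key _ _ h1 h2).sub (key _ _ h2 h1)

theorem base_cont {c : Y → List X → ℝ} (h : Cn c) :
    Continuous fun q : Y × X × X => base R (c q.1) q.2.1 q.2.2 := by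
  unfold base
  refine Continuous.mul continuous_const ?_
  refine intervalIntegral.continuous_parametric_intervalIntegral_of_continuous ?_ ?_
  · exact base_integrand_cont R h (Z := (Y × X × X) × ℝ) (f := fun z => z.1.1)
      (x := fun z => z.1.2.1) (y := fun z => z.1.2.2) (t := fun z => z.2)
      (continuous_fst.comp continuous_fst) (continuous_fst.comp (continuous_snd.comp continuous_fst))
      (continuous_snd.comp (continuous_snd.comp continuous_fst)) continuous_snd
  · exact (continuous_fst.comp continuous_snd).dist (continuous_snd.comp continuous_snd)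

/-- The straightening is continuous. -/
theorem Cn_st {c : Y → List X → ℝ} (h : Cn c)
    (hn : ∀ y, Nrm (c y)) : Cn fun y => st R o (c y) := by
  intro k
  induction k using Nat.strong_induction_on generalizing Y c with
  | _ k ih =>
    match k, ih with
    | 0, _ =>
      simp only [List.ofFn_zero, st_nil]
      have := h 0
      simpa using this
    | 1, _ =>
      have := h 1
      simpa [List.ofFn_succ] using this
    | 2, _ =>
      have h1 := (base_cont R h).comp (continuous_fst.prodMk
        (((continuous_apply 0).comp continuous_snd).prodMk ((continuous_apply 1).comp continuous_snd)) :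
          Continuous fun q : Y × (Fin 2 → X) => ((q.1, q.2 0, q.2 1) : Y × X × X))
      refine h1.congr fun q => ?_
      simp [List.ofFn_succ]
    | k + 3, ih =>
      have h1 : (fun q : Y × (Fin (k + 3) → X) =>
          st R o (c q.1) (List.ofFn q.2)) =
          fun q : Y × (Fin (k + 3) → X) => ∑ i ∈ Finset.range (k + 3),
            (-1 : ℝ) ^ i • st R o (Kp R (q.2 0) (c q.1))
              ((List.ofFn q.2).eraseIdx i) := by
        funext q
        rw [st_big R o _ (by simp)]
        have h2 : (List.ofFn q.2).headD o = q.2 0 := by simp [List.ofFn_succ]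
        rw [h2]
        unfold Pool.Agent.Helper11.BC.dl
        rw [List.length_ofFn]
      rw [h1]
      refine continuous_finsetSum _ fun i hi => ?_
      rw [Finset.mem_range] at hi
      have h3 := ih (k + 2) (by omega) (Y := Y × X) (c := fun y => Kp R y.2 (c y.1)) (Cn_Kp R h hn)
        (fun y => nrm_Kp R _ (hn _))
      have h4 : ∀ q : Y × (Fin (k + 3) → X), (List.ofFn q.2).eraseIdx i =
          List.ofFn (fun j : Fin (k + 2) => q.2 ((⟨i, hi⟩ : Fin (k + 3)).succAbove j)) := by
        intro q
        refine List.ext_getElem (by simp [List.length_eraseIdx_of_lt, hi]) fun j h5 h6 => ?_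
        rw [List.getElem_eraseIdx]
        simp only [List.getElem_ofFn, Fin.succAbove, Fin.lt_def, Fin.val_castSucc]
        split_ifs <;> rfl
      simp only [h4]
      have h5 : Continuous fun q : Y × (Fin (k + 3) → X) => st R o (Kp R (q.2 0) (c q.1))
          (List.ofFn fun j : Fin (k + 2) => q.2 ((⟨i, hi⟩ : Fin (k + 3)).succAbove j)) :=
        h3.comp ((continuous_fst.prodMk ((continuous_apply 0).comp continuous_snd)).prodMk
          (continuous_pi fun j => (continuous_apply _).comp continuous_snd))
      exact h5.const_smul ((-1 : ℝ) ^ i)

end cont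

end Pool.Agent.Helper14.SJ
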