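import Pool.Agent.Helper14.SJ.StA

/-!
# Block SJ: the straightening is a chain map
-/

set_option autoImplicit false

namespace Pool.Agent.Helper14.SJ

open Pool.Agent.Helper11.BC (dl)
open Pool.Agent.Helper14.BC

variable {G X : Type} [Group G] [MetricSpace X] [MulAction G X] (R : Rad G X) (o : X)

theorem C1_dl {T : Type} [TopologicalSpace T] {c : List T → ℝ} (h : C1 c) : C1 (dl c) :=
  (Cn_dl (h.cn (Y := Unit))).c1 ()

theorem C1_sub {T : Type} [TopologicalSpace T] {c c' : List T → ℝ} (h : C1 c) (h' : C1 c') :
    C1 fun l => c l - c' l := fun k => (h k).sub (h' k)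

theorem C1_Kp (p : X) {c : List X → ℝ} (h : C1 c) (hn : Nrm c) : C1 (Kp R p c) :=
  (Cn_Kp R (h.cn (Y := Unit)) fun _ => hn).c1 ((), p)

theorem base_int {c : List X → ℝ} (h : C1 c) (x y : X) (a b : ℝ) :
    IntervalIntegrable (fun t => c [R.Ps x t y, R.Ps x (t + 1) y] -
      c [R.Ps x (t + 1) y, R.Ps x t y]) MeasureTheory.volume a b :=
  (base_integrand_cont R (h.cn (Y := Unit)) (f := fun _ : ℝ => ()) continuous_const
    continuous_const continuous_const continuous_id).intervalIntegrable _ _

theorem base_sub {c c' : List X → ℝ} (h : C1 c) (h' : C1 c') (x y : X) :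
    base R (fun l => c l - c' l) x y = base R c x y - base R c' x y := by
  unfold base
  rw [← mul_sub, ← intervalIntegral.integral_sub (base_int R h x y _ _) (base_int R h' x y _ _)]
  congr 1
  refine intervalIntegral.integral_congr fun t _ => ?_
  simp only
  ring

theorem st_sub {c c' : List X → ℝ} (h : C1 c) (h' : C1 c') (hn : Nrm c) (hn' : Nrm c')
    (L : List X) : st R o (fun l => c l - c' l) L = st R o c L - st R o c' L := by
  obtain ⟨n, hn0⟩ : ∃ n, L.length = n := ⟨_, rfl⟩
  induction n using Nat.strong_induction_on generalizing L c c' with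
  | _ n ih =>
    match L, hn0 with
    | [], _ => rfl
    | [x], _ => rfl
    | [x, y], _ => exact base_sub R h h' x y
    | x :: y :: z :: l, hn0 =>
      rw [st_big R o _ (by simp), st_big R o c (by simp), st_big R o c' (by simp), ← dl_sub]
      refine dl_congr fun i hi => ?_
      have h2 := length_face hi
      rw [← ih _ (by omega) (C1_Kp R _ h hn) (C1_Kp R _ h' hn') (nrm_Kp R _ hn) (nrm_Kp R _ hn')
        _ rfl]
      exact st_congr R o fun l' _ => Kp_sub R _ hn hn' l'

/-- `∫_{-1}^{D} (F (t + 1) - F t) dt = F(D) - F(-1)` for `F` constant on `[-1, 0]` and on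
`[D, D + 1]`. -/
theorem tel {F : ℝ → ℝ} (hF : Continuous F) {D a b : ℝ} (h0 : ∀ t ≤ 0, F t = a)
    (h1 : ∀ t, D ≤ t → F t = b) : ∫ t in (-1 : ℝ)..D, (F (t + 1) - F t) = b - a := by
  have hi : ∀ u v : ℝ, IntervalIntegrable F MeasureTheory.volume u v := fun u v =>
    hF.intervalIntegrable u v
  have h2 : ∫ t in (-1 : ℝ)..D, F (t + 1) = ∫ t in (-1 + 1 : ℝ)..(D + 1), F t :=
    intervalIntegral.integral_comp_add_right F 1
  have h3 : IntervalIntegrable (fun t => F (t + 1)) MeasureTheory.volume (-1) D :=
    (hF.comp (continuous_id.add continuous_const)).intervalIntegrable _ _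
  rw [intervalIntegral.integral_sub h3 (hi _ _), h2,
    ← intervalIntegral.integral_add_adjacent_intervals (hi (-1) 0) (hi 0 D),
    ← intervalIntegral.integral_add_adjacent_intervals (hi (-1 + 1) D) (hi D (D + 1))]
  have h4 : ∫ t in (-1 : ℝ)..0, F t = a := by
    have : ∫ t in (-1 : ℝ)..0, F t = ∫ _ in (-1 : ℝ)..0, a := by
      refine intervalIntegral.integral_congr fun t ht => ?_
      rw [Set.uIcc_of_le (by norm_num)] at ht
      exact h0 t ht.2
    rw [this, intervalIntegral.integral_const]
    simp
  have h5 : ∫ t in D..(D + 1), F t = b := by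
    have : ∫ t in D..(D + 1), F t = ∫ _ in D..(D + 1), b := by
      refine intervalIntegral.integral_congr fun t ht => ?_
      rw [Set.uIcc_of_le (by linarith)] at ht
      exact h1 t ht.1
    rw [this, intervalIntegral.integral_const]
    simp
  rw [h4, h5]
  norm_num
  ring

theorem base_dl {c : List X → ℝ} (h : C1 c) (x y : X) : base R (dl c) x y = c [y] - c [x] := by
  have e : ∀ a b : X, dl c [a, b] = c [b] - c [a] := fun a b => by
    rw [dl_cons, dl_cons]
    simp
  have hF : Continuous fun t => c [R.Ps x t y] := by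
    have h3 := (h 1).comp (show Continuous fun t : ℝ => ![R.Ps x t y] from
      continuous_pi fun i => by
        fin_cases i
        exact R.cont.comp (continuous_const.prodMk (continuous_id.prodMk continuous_const)))
    refine h3.congr fun t => ?_
    simp [List.ofFn_succ]
  unfold base
  simp only [e]
  have h4 : ∀ t : ℝ, c [R.Ps x (t + 1) y] - c [R.Ps x t y] -
      (c [R.Ps x t y] - c [R.Ps x (t + 1) y]) =
      2 * (c [R.Ps x (t + 1) y] - c [R.Ps x t y]) := fun t => by ring
  simp only [h4]
  rw [intervalIntegral.integral_const_mul, tel (F := fun t => c [R.Ps x t y]) (D := dist x y)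
    (a := c [x]) (b := c [y]) hF (fun t ht => by rw [R.low _ _ _ ht])
    (fun t ht => by rw [R.high _ _ _ ht])]
  ring

/-- The straightening commutes with the alternating sum over the faces. -/
theorem st_dl {c : List X → ℝ} (h : C1 c) (hn : Nrm c) (L : List X) :
    st R o (dl c) L = dl (st R o c) L := by
  obtain ⟨n, hn0⟩ : ∃ n, L.length = n := ⟨_, rfl⟩
  induction n using Nat.strong_induction_on generalizing L c with
  | _ n ih =>
    match L, hn0 with
    | [], _ => rfl
    | [x], _ =>
      rw [st_one, dl_cons, dl_cons]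
      simp
    | [x, y], _ =>
      rw [st_two, base_dl R h, dl_cons, dl_cons]
      simp
    | x :: y :: z :: l, hn0 =>
      set L := x :: y :: z :: l with hL
      have hL3 : 3 ≤ L.length := by simp [hL]
      rw [st_big R o _ hL3]
      have h1 : dl (st R o (Kp R (L.headD o) (dl c))) L =
          dl (fun F => st R o c F - dl (st R o (Kp R (L.headD o) c)) F) L := by
        refine dl_congr fun i hi => ?_
        have h2 := length_face hi
        rw [← ih _ (by omega) (C1_Kp R _ h hn) (nrm_Kp R _ hn) _ rfl,
          ← st_sub R o h (C1_dl (C1_Kp R _ h hn)) hn (nrm_dl (nrm_Kp R _ hn))]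
        exact st_congr R o fun l' hl' => Kp_dl R _ hn (by omega)
      rw [h1, dl_sub, dl_dl, sub_zero]

end Pool.Agent.Helper14.SJ
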