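import Pool.Agent.Helper14.SJ.StB
import Pool.Agent.Helper14.SJ.KpL

/-!
# Block SJ: the triangle estimate
-/

set_option autoImplicit false

namespace Pool.Agent.Helper14.SJ

open Pool.Agent.Helper11.BC (dl)
open Pool.Agent.Helper14.BC
open MeasureTheory

variable {G X : Type} [Group G] [MetricSpace X] [MulAction G X] (R : Rad G X)

/-- The integrand of `base`. -/
noncomputable def gi (φ : List X → ℝ) (x y : X) (t : ℝ) : ℝ :=
  φ [R.Ps x t y, R.Ps x (t + 1) y] - φ [R.Ps x (t + 1) y, R.Ps x t y]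

/-- The Gromov product `(y | z)_x`. -/
noncomputable def gp (x y z : X) : ℝ := (dist x y + dist x z - dist y z) / 2

theorem base_gi (φ : List X → ℝ) (x y : X) :
    base R φ x y = 1 / 2 * ∫ t in (-1 : ℝ)..(dist x y), gi R φ x y t := rfl

theorem gi_int {φ : List X → ℝ} (h : C1 φ) (x y : X) (a b : ℝ) :
    IntervalIntegrable (gi R φ x y) volume a b := base_int R h x y a b

theorem dm_pair {r : ℝ} (hr : 0 ≤ r) {a b : X} (h : dist a b ≤ r) : Dm r [a, b] := by
  intro x hx y hy
  simp only [List.mem_cons, List.not_mem_nil, or_false] at hx hy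
  rcases hx with rfl | rfl <;> rcases hy with rfl | rfl
  · rwa [dist_self]
  · exact h
  · rwa [dist_comm]
  · rwa [dist_self]

theorem LB_pair {r M : ℝ} {φ : List X → ℝ} (hL : LB 2 r M φ) (hr : 0 ≤ r) {a b a' b' : X}
    {δ : ℝ} (h1 : dist a b ≤ r) (h2 : dist a' b' ≤ r) (h3 : dist a a' ≤ δ) (h4 : dist b b' ≤ δ)
    (h5 : δ ≤ r) : |φ [a, b] - φ [a', b']| ≤ M * δ :=
  hL δ [a, b] [a', b'] rfl (List.Forall₂.cons h3 (List.Forall₂.cons h4 List.Forall₂.nil))
    (dm_pair hr h1) (dm_pair hr h2) h5

theorem abs_pair {r M : ℝ} {φ : List X → ℝ} (hn : Nrm φ) (hL : LB 2 r M φ) (hr : 0 ≤ r)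
    {a b : X} (h : dist a b ≤ r) : |φ [a, b]| ≤ M * r := by
  have h1 := LB_pair hL hr (a := a) (b := b) (a' := a) (b' := a) (δ := r) h (by rwa [dist_self])
    (by rwa [dist_self]) (by rwa [dist_comm]) le_rfl
  have h2 : φ [a, a] = 0 := hn [] [] a
  rwa [h2, sub_zero] at h1

theorem step_one (x y : X) (t : ℝ) : dist (R.Ps x t y) (R.Ps x (t + 1) y) ≤ 1 := by
  refine (R.step _ _ _ _).trans ?_
  rw [sub_add_cancel_left, abs_neg, abs_one]

/-- `|gi| ≤ 2 M r`, for `r ≥ 1`. -/
theorem gi_abs {r M : ℝ} {φ : List X → ℝ} (hn : Nrm φ) (hL : LB 2 r M φ) (hr : 1 ≤ r)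
    (x y : X) (t : ℝ) : |gi R φ x y t| ≤ 2 * (M * r) := by
  have h0 : 0 ≤ r := by linarith
  have h1 := abs_pair hn hL h0 ((step_one R x y t).trans hr)
  have h2 := abs_pair hn hL h0 (a := R.Ps x (t + 1) y) (b := R.Ps x t y)
    (by rw [dist_comm]; exact (step_one R x y t).trans hr)
  unfold gi
  refine (abs_sub _ _).trans ?_
  linarith

/-- Reversal. -/
theorem gi_rev (φ : List X → ℝ) (x y : X) (t : ℝ) :
    gi R φ y x t = -gi R φ x y (dist x y - 1 - t) := by
  have h1 : R.Ps y t x = R.Ps x (dist x y - t) y := by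
    have := R.rev x y (dist x y - t)
    rwa [sub_sub_cancel] at this
  have h2 : R.Ps y (t + 1) x = R.Ps x (dist x y - 1 - t) y := by
    have := R.rev x y (dist x y - 1 - t)
    rwa [show dist x y - (dist x y - 1 - t) = t + 1 by ring] at this
  unfold gi
  rw [h1, h2, show dist x y - 1 - t + 1 = dist x y - t by ring]
  ring

/-- The part of the side up to `u`. -/
noncomputable def Ii (φ : List X → ℝ) (x y : X) (u : ℝ) : ℝ := ∫ t in (-1 : ℝ)..u, gi R φ x y t

/-- Splitting a side at `u`: `∫_u^D gi x y = - ∫_{-1}^{D-1-u} gi y x`, and the missing unit costs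
at most `2 M r`. -/
theorem base_split {r M : ℝ} {φ : List X → ℝ} (h : C1 φ) (hn : Nrm φ) (hL : LB 2 r M φ)
    (hr : 1 ≤ r) (x y : X) (u : ℝ) :
    |2 * base R φ x y - (Ii R φ x y u - Ii R φ y x (dist x y - u))| ≤ 2 * (M * r) := by
  have h1 : 2 * base R φ x y = Ii R φ x y u + ∫ t in u..(dist x y), gi R φ x y t := by
    unfold Ii
    rw [base_gi, intervalIntegral.integral_add_adjacent_intervals (gi_int R h x y _ _)
      (gi_int R h x y _ _)]
    ring
  have h2 : ∫ t in u..(dist x y), gi R φ x y t = -∫ t in (-1 : ℝ)..(dist x y - 1 - u), gi R φ y x t := by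
    have h3 : ∀ t, gi R φ y x t = -gi R φ x y (dist x y - 1 - t) := gi_rev R φ x y
    simp only [h3]
    rw [intervalIntegral.integral_neg, neg_neg,
      intervalIntegral.integral_comp_sub_left (fun s => gi R φ x y s) (dist x y - 1)]
    congr 1 <;> ring
  have h3 : Ii R φ y x (dist x y - u) = (∫ t in (-1 : ℝ)..(dist x y - 1 - u), gi R φ y x t) +
      ∫ t in (dist x y - 1 - u)..(dist x y - u), gi R φ y x t := by
    unfold Ii
    rw [intervalIntegral.integral_add_adjacent_intervals (gi_int R h y x _ _)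
      (gi_int R h y x _ _)]
  have h4 : |∫ t in (dist x y - 1 - u)..(dist x y - u), gi R φ y x t| ≤ 2 * (M * r) := by
    have := intervalIntegral.norm_integral_le_of_norm_le_const (a := dist x y - 1 - u)
      (b := dist x y - u) (f := gi R φ y x) (C := 2 * (M * r))
      (fun t _ => gi_abs R hn hL hr y x t)
    rw [show dist x y - u - (dist x y - 1 - u) = 1 by ring, abs_one, mul_one] at this
    exact this
  rw [h1, h2, h3]
  refine le_trans (le_of_eq ?_) h4
  congr 1
  ring

/-- The two sides at `x` up to the Gromov product. -/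
theorem side_cmp {M : ℝ} (hM : 0 ≤ M) {φ : List X → ℝ} (h : C1 φ)
    (hL : LB 2 ((R.T + 2) * 3 + 1) M φ) (x y z : X) :
    |Ii R φ x y (gp x y z) - Ii R φ x z (gp x y z)| ≤
      2 * (M * ((R.T + 2) * 3)) := by
  set u := gp x y z with hu
  set r := (R.T + 2) * 3 + 1 with hr
  have hT := R.T_nonneg
  have hr1 : 1 ≤ r := by rw [hr]; linarith
  have hu0 : 0 ≤ u := by
    have := dist_triangle y x z
    rw [dist_comm y x] at this
    rw [hu, gp]
    linarith
  have h3 : Real.exp 1 ≤ 3 := by
    have := Real.exp_one_lt_d9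
    linarith
  -- the distances
  have hd : ∀ t ≤ u + 1, dist (R.Ps x t y) (R.Ps x t z) ≤ (R.T + 2) * Real.exp (t - u) := by
    intro t ht
    rcases le_or_gt t u with h1 | h1
    · refine (R.thin x y z t h1).trans ?_
      exact mul_le_mul_of_nonneg_right (by linarith) (Real.exp_pos _).le
    · have h2 := R.thin x y z u le_rfl
      have h4 := R.step x t u y
      have h5 := R.step x u t z
      have h6 := dist_triangle4 (R.Ps x t y) (R.Ps x u y) (R.Ps x u z) (R.Ps x t z)
      rw [abs_of_pos (by linarith)] at h4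
      rw [abs_of_neg (by linarith)] at h5
      have h7 : (dist x y + dist x z - dist y z) / 2 = u := rfl
      rw [h7, sub_self, Real.exp_zero, mul_one] at h2
      have h8 : 1 ≤ Real.exp (t - u) := Real.one_le_exp (by linarith)
      nlinarith
  have hg : ∀ t ≤ u, |gi R φ x y t - gi R φ x z t| ≤
      2 * (M * ((R.T + 2) * 3)) * Real.exp (t - u) := by
    intro t ht
    set δ := (R.T + 2) * 3 * Real.exp (t - u) with hδ
    have h1 : dist (R.Ps x t y) (R.Ps x t z) ≤ δ := by
      refine (hd t (by linarith)).trans ?_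
      have := Real.exp_pos (t - u)
      rw [hδ]
      nlinarith
    have h2 : dist (R.Ps x (t + 1) y) (R.Ps x (t + 1) z) ≤ δ := by
      refine (hd (t + 1) (by linarith)).trans ?_
      have h5 : Real.exp (t + 1 - u) = Real.exp 1 * Real.exp (t - u) := by
        rw [← Real.exp_add]
        congr 1
        ring
      rw [h5, hδ, mul_assoc (R.T + 2)]
      refine mul_le_mul_of_nonneg_left ?_ (by linarith)
      exact mul_le_mul_of_nonneg_right h3 (Real.exp_pos _).le
    have h4 : δ ≤ r := by
      have h5 : Real.exp (t - u) ≤ 1 := Real.exp_le_one_iff.2 (by linarith)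
      have h6 : 0 ≤ (R.T + 2) * 3 := by linarith
      have h7 := mul_le_mul_of_nonneg_left h5 h6
      rw [hr, hδ]
      linarith
    have h0 : 0 ≤ r := by linarith
    have e1 := LB_pair hL h0 ((step_one R x y t).trans hr1) ((step_one R x z t).trans hr1) h1 h2 h4
    have e2 := LB_pair hL h0 (by rw [dist_comm]; exact (step_one R x y t).trans hr1)
      (by rw [dist_comm]; exact (step_one R x z t).trans hr1) h2 h1 h4
    unfold gi
    rw [abs_le] at e1 e2 ⊢
    rw [hδ] at e1 e2
    constructor <;> linarith [e1.1, e1.2, e2.1, e2.2]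
  have hexp : ∫ t in (-1 : ℝ)..u, Real.exp (t - u) ≤ 1 := by
    rw [intervalIntegral.integral_comp_sub_right (fun s => Real.exp s) u, integral_exp, sub_self,
      Real.exp_zero]
    have := Real.exp_pos (-1 - u)
    linarith
  unfold Ii
  rw [← intervalIntegral.integral_sub (gi_int R h x y _ _) (gi_int R h x z _ _)]
  have h9 := intervalIntegral.norm_integral_le_of_norm_le (μ := volume) (a := -1) (b := u)
    (f := fun t => gi R φ x y t - gi R φ x z t)
    (g := fun t => 2 * (M * ((R.T + 2) * 3)) * Real.exp (t - u)) (by linarith)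
    (Filter.Eventually.of_forall fun t ht => hg t ht.2)
    ((by fun_prop : Continuous fun t : ℝ => 2 * (M * ((R.T + 2) * 3)) *
      Real.exp (t - u)).intervalIntegrable _ _)
  rw [Real.norm_eq_abs, intervalIntegral.integral_const_mul] at h9
  refine h9.trans ?_
  have h10 : 0 ≤ 2 * (M * ((R.T + 2) * 3)) := by
    have := hM
    positivity
  refine (mul_le_mul_of_nonneg_left hexp h10).trans (le_of_eq (mul_one _))

/-- PIECE SJ-Thin. -/
theorem thin_bound {M : ℝ} (hM : 0 ≤ M) {φ : List X → ℝ} (h : C1 φ) (hn : Nrm φ)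
    (hL : LB 2 ((R.T + 2) * 3 + 1) M φ) (x y z : X) :
    |base R φ y z - base R φ x z + base R φ x y| ≤
      6 * (M * ((R.T + 2) * 3 + 1)) := by
  have hT := R.T_nonneg
  have hr1 : 1 ≤ (R.T + 2) * 3 + 1 := by linarith
  have a1 := side_cmp R hM h hL x y z
  have a2 := side_cmp R hM h hL y z x
  have a3 := side_cmp R hM h hL z x y
  have b1 := base_split R h hn hL hr1 x y (gp x y z)
  have b2 := base_split R h hn hL hr1 x z (gp x y z)
  have b3 := base_split R h hn hL hr1 y z (gp y z x)
  have e1 : dist x y - gp x y z = gp y z x := by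
    unfold gp
    rw [dist_comm y x, dist_comm z x]
    ring
  have e2 : dist x z - gp x y z = gp z x y := by
    unfold gp
    rw [dist_comm z x, dist_comm z y]
    ring
  have e3 : dist y z - gp y z x = gp z x y := by
    unfold gp
    rw [dist_comm z x, dist_comm z y, dist_comm y x]
    ring
  rw [e1] at b1
  rw [e2] at b2
  rw [e3] at b3
  have hΛ' := hM
  have h5 : M * ((R.T + 2) * 3) ≤
      M * ((R.T + 2) * 3 + 1) :=
    mul_le_mul_of_nonneg_left (by linarith) hM
  rw [abs_le] at *
  constructor <;> linarith [a1.1, a1.2, a2.1, a2.2, a3.1, a3.2, b1.1, b1.2, b2.1, b2.2, b3.1, b3.2]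

end Pool.Agent.Helper14.SJ
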